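import Pool.Agent.Y505.MH.Eq
import Pool.Agent.Y505.MA.Core

/-!
# Mahler's inequality with stability: all interior points
-/

set_option autoImplicit false

open MeasureTheory Set Filter Topology
open scoped ENNReal Pointwise Matrix

namespace Pool.Agent.Y505.MH

open Pool.Agent.TH537.EQ

variable {n : ℕ} {K : Set (Fin n → ℝ)}

lemma DP_sub (z : Fin n → ℝ) : DP ((fun x => x - z) '' K) = DP K := by
  ext y
  constructor
  · intro h x hx x' hx'
    have := h _ ⟨x, hx, rfl⟩ _ ⟨x', hx', rfl⟩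
    simpa using this
  · rintro h _ ⟨x, hx, rfl⟩ _ ⟨x', hx', rfl⟩
    simpa using h x hx x' hx'

lemma volL (z : Fin n → ℝ) : volume.real ((fun x => x - z) '' K) = volume.real K := by
  rw [Measure.real, vol_sub]; rfl

/-- the inequality for the polar of the difference body -/
theorem dp_ge' (hc : IsCompact K) (hv : Convex ℝ K) (hi : (interior K).Nonempty) :
    (n : ℝ) + 1 ≤ n.factorial * (volume.real K * volume.real (DP K)) := by
  obtain ⟨z, hz⟩ := hi
  have h := dp_ge (NB_sub hc hv hz)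
  rwa [DP_sub, volL] at h

/-- stability at every interior point -/
theorem stab' (hc : IsCompact K) (hv : Convex ℝ K) {z : Fin n → ℝ} (hz : z ∈ interior K) {t : ℝ}
    (ht : 1 / 2 ≤ t) (ht1 : t ≤ 1)
    (h : (n : ℝ) + 1 ≤ t ^ (n + 1) * (n.factorial * (volume.real K * volume.real (DP K)))) :
    ((n : ℝ) + 1) ^ (n + 1) / (n.factorial : ℝ) ^ 2 * (Real.exp (2 * t - 2) / t ^ 2) ^ (n + 1) ≤
      volume.real K * volume.real (plr K z) := by
  have h1 := stab (NB_sub hc hv hz) ht ht1 (by rw [DP_sub, volL]; exact h)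
  rwa [pol_sub, volL] at h1

/-- from the difference body to its polar -/
theorem of_diff' (hc : IsCompact K) (hv : Convex ℝ K) (hi : (interior K).Nonempty) {t : ℝ}
    (h : ((n : ℝ) + 1) * volume.real (K - K) ≤ 4 ^ n * t ^ (n + 1) * volume.real K) :
    (n : ℝ) + 1 ≤ t ^ (n + 1) * (n.factorial * (volume.real K * volume.real (DP K))) := by
  obtain ⟨z, hz⟩ := hi
  have hNB := NB_sub hc hv hz
  have hNB' : H801NS.NB ((fun x => x - z) '' K) := ⟨hNB.comp, hNB.conv, hNB.zero⟩
  have h1 := Pool.Agent.Y505.MA.sym_diff hNB'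
  have e1 : (fun x => x - z) '' K - (fun x => x - z) '' K = K - K := by
    ext w
    constructor
    · rintro ⟨_, ⟨x, hx, rfl⟩, _, ⟨x', hx', rfl⟩, rfl⟩
      exact ⟨x, hx, x', hx', by simp⟩
    · rintro ⟨x, hx, x', hx', rfl⟩
      exact ⟨_, ⟨x, hx, rfl⟩, _, ⟨x', hx', rfl⟩, by simp⟩
  have e2 : H801NS.pol (K - K) = DP K := by
    ext y
    constructor
    · intro h x hx x' hx'
      exact h _ ⟨x, hx, x', hx', rfl⟩
    · rintro h _ ⟨x, hx, x', hx', rfl⟩
      exact h x hx x' hx'
  rw [e1, e2] at h1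
  have hDnn : (0:ℝ) ≤ n.factorial * volume.real (DP K) := by positivity
  have h2 := mul_le_mul_of_nonneg_left h hDnn
  have h3 := mul_le_mul_of_nonneg_left h1 (by positivity : (0:ℝ) ≤ (n:ℝ) + 1)
  have h4 : (4:ℝ) ^ n * ((n : ℝ) + 1) ≤
      4 ^ n * (t ^ (n + 1) * (n.factorial * (volume.real K * volume.real (DP K)))) := by
    calc (4:ℝ) ^ n * ((n : ℝ) + 1) = ((n:ℝ) + 1) * 4 ^ n := by ring
      _ ≤ _ := h3
      _ = n.factorial * volume.real (DP K) * (((n : ℝ) + 1) * volume.real (K - K)) := by ring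
      _ ≤ _ := h2
      _ = _ := by ring
  exact le_of_mul_le_mul_left h4 (by positivity)

end Pool.Agent.Y505.MH
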