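import Pool.Agent.Y505.MH.Cone3
import Pool.Agent.TH537.EQ.Main
import Pool.Agent.H801R3.NS.POL

/-!
# Mahler's inequality for bodies with a measure of asymmetry
-/

set_option autoImplicit false

open MeasureTheory Set Filter Topology
open scoped ENNReal Pointwise Matrix

namespace Pool.Agent.Y505.MH

open Pool.Agent.TH537.EQ

variable {n : ℕ} {L : Set (Fin n → ℝ)}

/-- the polar body of the difference body -/
def DP (L : Set (Fin n → ℝ)) : Set (Fin n → ℝ) := {y | ∀ x ∈ L, ∀ x' ∈ L, (x - x') ⬝ᵥ y ≤ 1}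

lemma nb_pol (hL : NB L) : NB (pol L) := by
  obtain ⟨h, -⟩ := H801NS.t_POL n L ⟨hL.comp, hL.conv, hL.zero⟩
  exact ⟨h.comp, h.conv, h.zero⟩

/-- the support function is the gauge of the polar body -/
lemma supp_iff (hL : NB L) (y : Fin n → ℝ) (s : ℝ) :
    (∀ x ∈ L, x ⬝ᵥ y ≤ s) ↔ gauge (pol L) y ≤ s := by
  have hP := nb_pol hL
  have hpos : ∀ r : ℝ, 0 < r → ((∀ x ∈ L, x ⬝ᵥ y ≤ r) ↔ gauge (pol L) y ≤ r) := by
    intro r hr
    rw [hP.gauge_le hr, mem_smul_set_iff_inv_smul_mem₀ hr.ne']
    unfold pol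
    simp only [mem_ofPred_eq, dotProduct_smul, smul_eq_mul]
    refine forall_congr' fun x => imp_congr_right fun _ => ?_
    rw [inv_mul_le_iff₀ hr, mul_one]
  rcases lt_or_ge s 0 with hs | hs
  · constructor
    · intro h
      have := h 0 (interior_subset hL.zero)
      rw [zero_dotProduct] at this
      linarith
    · intro h
      have := gauge_nonneg (s := pol L) y
      linarith
  · constructor
    · intro h
      refine le_of_forall_pos_le_add fun ε hε => (hpos (s + ε) (by linarith)).1 fun x hx => ?_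
      linarith [h x hx]
    · intro h x hx
      refine le_of_forall_pos_le_add fun ε hε => (hpos (s + ε) (by linarith)).2 ?_ x hx
      linarith

lemma DP_iff (hL : NB L) (y : Fin n → ℝ) (s : ℝ) :
    (∀ x ∈ L, ∀ x' ∈ L, (x - x') ⬝ᵥ y ≤ s) ↔ gauge (pol L) y + gauge (pol L) (-y) ≤ s := by
  have h1 : gauge (pol L) y + gauge (pol L) (-y) ≤ s ↔ gauge (pol L) (-y) ≤ s - gauge (pol L) y := by
    constructor <;> intro h <;> linarith
  rw [h1, ← supp_iff hL (-y)]
  constructor
  · intro h x' hx'
    have h2 : gauge (pol L) y ≤ s + x' ⬝ᵥ y := by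
      rw [← supp_iff hL y]
      intro x hx
      have := h x hx x' hx'
      rw [sub_dotProduct] at this
      linarith
    rw [dotProduct_neg]
    linarith
  · intro h x hx x' hx'
    have h2 := h x' hx'
    rw [dotProduct_neg] at h2
    have h3 : gauge (pol L) y ≤ s + x' ⬝ᵥ y := by linarith
    rw [← supp_iff hL y] at h3
    rw [sub_dotProduct]
    linarith [h3 x hx]

lemma nb_DP (hL : NB L) : NB (DP L) := by
  have hP := nb_pol hL
  have hcg := hP.gauge_cont
  have hset : DP L = {y | gauge (pol L) y + gauge (pol L) (-y) ≤ 1} := by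
    ext y
    exact DP_iff hL y 1
  refine ⟨?_, ?_, ?_⟩
  · refine Metric.isCompact_of_isClosed_isBounded ?_ ((pol_bdd hL).subset fun y hy => ?_)
    · rw [hset]
      exact isClosed_le (hcg.add (hcg.comp continuous_neg)) continuous_const
    · intro x hx
      have := hy x hx 0 (interior_subset hL.zero)
      rwa [sub_zero] at this
  · intro y hy z hz a b ha hb hab x hx x' hx'
    have h1 := hy x hx x' hx'
    have h2 := hz x hx x' hx'
    rw [dotProduct_add, dotProduct_smul, dotProduct_smul, smul_eq_mul, smul_eq_mul]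
    nlinarith [mul_le_mul_of_nonneg_left h1 ha, mul_le_mul_of_nonneg_left h2 hb]
  · rw [hset, mem_interior]
    refine ⟨{y | gauge (pol L) y + gauge (pol L) (-y) < 1}, fun y hy => ?_,
      isOpen_lt (hcg.add (hcg.comp continuous_neg)) continuous_const, ?_⟩
    · exact (show gauge (pol L) y + gauge (pol L) (-y) < 1 from hy).le
    · show gauge (pol L) 0 + gauge (pol L) (-0) < 1
      rw [neg_zero, _root_.gauge_zero]
      norm_num

lemma gauge_DP (hL : NB L) (y : Fin n → ℝ) :
    gauge (DP L) y = gauge (pol L) y + gauge (pol L) (-y) := by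
  have hD := nb_DP hL
  have key : ∀ s : ℝ, 0 < s → (gauge (DP L) y ≤ s ↔ gauge (pol L) y + gauge (pol L) (-y) ≤ s) := by
    intro s hs
    rw [← DP_iff hL y s, hD.gauge_le hs, mem_smul_set_iff_inv_smul_mem₀ hs.ne']
    unfold DP
    simp only [mem_ofPred_eq, dotProduct_smul, smul_eq_mul]
    refine forall_congr' fun x => imp_congr_right fun _ => forall_congr' fun x' =>
      imp_congr_right fun _ => ?_
    rw [inv_mul_le_iff₀ hs, mul_one]
  have h1 := gauge_nonneg (s := DP L) y
  have h2 := gauge_nonneg (s := pol L) y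
  have h3 := gauge_nonneg (s := pol L) (-y)
  refine le_antisymm ?_ ?_
  · exact le_of_forall_pos_le_add fun ε hε => (key _ (by linarith)).2 (by linarith)
  · exact le_of_forall_pos_le_add fun ε hε => (key _ (by linarith)).1 (by linarith)

/-- volumes by vertical lines -/
lemma vol_lines {S : Set (Fin (n + 1) → ℝ)} (hS : MeasurableSet S) :
    volume S = ∫⁻ y : Fin n → ℝ, volume {s : ℝ | (Fin.cons s y : Fin (n + 1) → ℝ) ∈ S} := by
  have hmp := (volume_preserving_piFinSuccAbove (fun _ : Fin (n + 1) => ℝ) 0).symm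
  rw [← hmp.measure_preimage_equiv, Measure.volume_eq_prod,
    Measure.prod_apply_symm (hmp.measurable hS)]
  refine lintegral_congr fun y => ?_
  congr 1
  ext s
  simp only [mem_preimage, mem_ofPred_eq]
  have : (MeasurableEquiv.piFinSuccAbove (fun _ : Fin (n + 1) => ℝ) 0).symm (s, y) =
      (Fin.cons s y : Fin (n + 1) → ℝ) := by
    funext i
    refine Fin.cases ?_ (fun j => ?_) i
    · simp [MeasurableEquiv.piFinSuccAbove_symm_apply]
    · simp [MeasurableEquiv.piFinSuccAbove_symm_apply]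
  rw [this]

/-- the order interval of the dual cone -/
lemma vol_OI (hL : NB L) : volume.real (OI (dl (Cn L)) (e0 n)) =
    1 / (n + 1) * volume.real (DP L) := by
  have hD := nb_DP hL
  have hcl : IsClosed (OI (dl (Cn L)) (e0 n)) := by
    have h1 := dl_closed (Cn L)
    exact h1.inter (h1.preimage (continuous_const.sub continuous_id))
  have e1 : volume (OI (dl (Cn L)) (e0 n)) = volume (T (Cn (DP L)) (e0 n)) := by
    rw [vol_lines hcl.measurableSet,
      vol_lines (T_compact (Cn_CN hD) (Cn_Pos hD)).measurableSet]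
    refine lintegral_congr fun y => ?_
    have a1 : {s : ℝ | (Fin.cons s y : Fin (n + 1) → ℝ) ∈ T (Cn (DP L)) (e0 n)} =
        Icc (gauge (DP L) y) 1 := by
      ext s
      unfold T Cn
      simp only [mem_ofPred_eq, dot_e0, Fin.cons_zero, Fin.tail_cons, mem_Icc]
    have a2 : {s : ℝ | (Fin.cons s y : Fin (n + 1) → ℝ) ∈ OI (dl (Cn L)) (e0 n)} =
        Icc (gauge (pol L) (-y)) (1 - gauge (pol L) y) := by
      ext s
      show ((Fin.cons s y : Fin (n + 1) → ℝ) ∈ dl (Cn L) ∧
        e0 n - (Fin.cons s y : Fin (n + 1) → ℝ) ∈ dl (Cn L)) ↔ _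
      rw [mem_dl_Cn hL, mem_dl_Cn hL, mem_Icc]
      have b1 : (e0 n - (Fin.cons s y : Fin (n + 1) → ℝ)) 0 = 1 - s := by
        simp [e0]
      have b2 : Fin.tail (e0 n - (Fin.cons s y : Fin (n + 1) → ℝ)) = -y := by
        funext i
        simp [Fin.tail, e0]
      rw [b1, b2, Fin.cons_zero, Fin.tail_cons]
      have c1 : (∀ x ∈ L, 0 ≤ s + x ⬝ᵥ y) ↔ gauge (pol L) (-y) ≤ s := by
        rw [← supp_iff hL (-y) s]
        refine forall_congr' fun x => imp_congr_right fun _ => ?_
        rw [dotProduct_neg]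
        constructor <;> intro h <;> linarith
      have c2 : (∀ x ∈ L, 0 ≤ 1 - s + x ⬝ᵥ -y) ↔ gauge (pol L) y ≤ 1 - s := by
        rw [← supp_iff hL y (1 - s)]
        refine forall_congr' fun x => imp_congr_right fun _ => ?_
        rw [dotProduct_neg]
        constructor <;> intro h <;> linarith
      rw [c1, c2]
      have g1 := gauge_nonneg (s := pol L) y
      have g2 := gauge_nonneg (s := pol L) (-y)
      constructor
      · rintro ⟨⟨h1, h2⟩, h3, h4⟩
        exact ⟨h2, by linarith⟩
      · rintro ⟨h1, h2⟩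
        exact ⟨⟨by linarith, h1⟩, by linarith, by linarith⟩
    rw [a1, a2, Real.volume_Icc, Real.volume_Icc, gauge_DP hL]
    congr 1
    ring
  rw [Measure.real, e1, vol_T_Cn hD, ENNReal.toReal_mul, ENNReal.toReal_ofReal (by positivity)]
  rfl

lemma fT (hL : NB L) : ((n + 1).factorial : ℝ) * volume.real (T (Cn L) (e0 n)) =
    n.factorial * volume.real L := by
  have e1 : volume.real (T (Cn L) (e0 n)) = 1 / (n + 1) * volume.real L := by
    rw [Measure.real, vol_T_Cn hL, ENNReal.toReal_mul, ENNReal.toReal_ofReal (by positivity)]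
    rfl
  rw [e1, Nat.factorial_succ]
  push_cast
  field_simp

lemma fT' (hL : NB L) : ((n + 1).factorial : ℝ) * volume.real (T (dl (Cn L)) (e0 n)) =
    n.factorial * volume.real (pol L) := by
  have e2 : volume.real (T (dl (Cn L)) (e0 n)) = 1 / (n + 1) * volume.real (pol L) := by
    rw [Measure.real, vol_T_dl hL, ENNReal.toReal_mul, ENNReal.toReal_ofReal (by positivity)]
    rfl
  rw [e2, Nat.factorial_succ]
  push_cast
  field_simp

/-- `n + 1 ≤ n! |L| |(L - L)°|` -/
theorem dp_ge (hL : NB L) : (n : ℝ) + 1 ≤ n.factorial * (volume.real L * volume.real (DP L)) := by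
  have h := base_le (Cn_CN hL) (Cn_Pos hL) (e0_int hL)
  rw [vol_OI hL, fT hL] at h
  have hn : (0:ℝ) < (n:ℝ) + 1 := by positivity
  have h2 := mul_le_mul_of_nonneg_left h hn.le
  calc (n : ℝ) + 1 = (n + 1) * 1 := (mul_one _).symm
    _ ≤ _ := h2
    _ = _ := by field_simp

/-- **Mahler's inequality with a measure of asymmetry** -/
theorem stab (hL : NB L) {t : ℝ} (ht : 1 / 2 ≤ t) (ht1 : t ≤ 1)
    (h : (n : ℝ) + 1 ≤ t ^ (n + 1) * (n.factorial * (volume.real L * volume.real (DP L)))) :
    ((n : ℝ) + 1) ^ (n + 1) / (n.factorial : ℝ) ^ 2 * (Real.exp (2 * t - 2) / t ^ 2) ^ (n + 1) ≤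
      volume.real L * volume.real (pol L) := by
  have hn : (0:ℝ) < (n:ℝ) + 1 := by positivity
  have h1 := cone3 (by omega : 1 ≤ n + 1) (Cn_CN hL) (Cn_Pos hL) (e0_int hL) e0_dot ht ht1 (by
    rw [vol_OI hL, fT hL]
    have h2 : ((n : ℝ) + 1) * 1 ≤ ((n : ℝ) + 1) * (1 / (n + 1) * volume.real (DP L) *
        (t ^ (n + 1) * (n.factorial * volume.real L))) := by
      calc ((n : ℝ) + 1) * 1 = n + 1 := mul_one _
        _ ≤ _ := h
        _ = _ := by field_simp
    exact le_of_mul_le_mul_left h2 hn)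
  rw [fT hL, fT' hL] at h1
  push_cast at h1
  have hF : (0:ℝ) < (n.factorial : ℝ) ^ 2 := by positivity
  rw [div_mul_eq_mul_div, div_le_iff₀ hF]
  linarith

end Pool.Agent.Y505.MH
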