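import Pool.Agent.Y505.MH.Inc3
import Pool.Agent.TH388.EQ.DU
import Pool.Agent.TH388.EQ.E2C
import Pool.Agent.TH352.EQ.RS

/-!
# Mahler's inequality for cones with a measure of asymmetry
-/

set_option autoImplicit false

open MeasureTheory Set Filter Topology
open scoped ENNReal Pointwise Matrix

namespace Pool.Agent.Y505.MH

open Pool.Agent.TH537.EQ

/-- the two inequalities of type E2 and the positivity -/
lemma base {N : ℕ} {C : Set (Fin N → ℝ)} {e c : Fin N → ℝ} (hC : CN C)
    (hp : Pos C e) (hc : c ∈ interior C) :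
    0 < volume.real (OI C c) ∧ 0 < volume.real (OI (dl C) e) ∧
    (∀ u : ℝ, 0 < u → u < 1 → (volume.real (OI (dl C) e))⁻¹ ≤ N.factorial * volume.real (HT C e u)) ∧
    (∀ u : ℝ, 0 < u → u < 1 →
      (volume.real (OI C c))⁻¹ ≤ N.factorial * volume.real (HT (dl C) c u)) := by
  obtain ⟨hC', hp', he', hdd⟩ := Pool.Agent.TH388.EQ.t_DU N C e c hC hp hc
  set V : ℝ := volume.real (OI C c) with hV
  set V' : ℝ := volume.real (OI (dl C) e) with hV'
  have hE1 : ∀ u : ℝ, 0 < u → u < 1 → 1 ≤ V * (N.factorial * volume.real (HT (dl C) c u)) := by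
    intro u h0 h1
    have := Pool.Agent.TH388.EQ.t_E2C N C e c u hC hp hc h0 h1
    rw [← hV] at this
    linarith
  have hE2 : ∀ u : ℝ, 0 < u → u < 1 → 1 ≤ V' * (N.factorial * volume.real (HT C e u)) := by
    intro u h0 h1
    have := Pool.Agent.TH388.EQ.t_E2C N (dl C) c e u hC' hp' he' h0 h1
    rw [← hV', hdd] at this
    linarith
  have hV0 : 0 < V := by
    have h := hE1 (1 / 2) (by norm_num) (by norm_num)
    by_contra hcon
    push Not at hcon
    have h2 : (0:ℝ) ≤ N.factorial * volume.real (HT (dl C) c (1 / 2)) := by positivity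
    nlinarith
  have hV'0 : 0 < V' := by
    have h := hE2 (1 / 2) (by norm_num) (by norm_num)
    by_contra hcon
    push Not at hcon
    have h2 : (0:ℝ) ≤ N.factorial * volume.real (HT C e (1 / 2)) := by positivity
    nlinarith
  refine ⟨hV0, hV'0, fun u h0 h1 => ?_, fun u h0 h1 => ?_⟩
  · rw [inv_le_iff_one_le_mul₀ hV'0, mul_comm]
    linarith [hE2 u h0 h1]
  · rw [inv_le_iff_one_le_mul₀ hV0, mul_comm]
    linarith [hE1 u h0 h1]

open Pool.Agent.TH352.EQ in
/-- the Rogers–Shephard inequality for the truncated cone -/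
lemma rs {N : ℕ} {C : Set (Fin N → ℝ)} {e : Fin N → ℝ} (hC : CN C) (he : Pos C e) :
    volume (HT C e (1 / 2)) ≤ volume (T C e) := by
  have hT : volume (T C e) ≠ ∞ := (Pool.Agent.TH537.EQ.T_compact hC he).measure_lt_top.ne
  have hT0 : volume (T C e) ≠ 0 := by
    have := Pool.Agent.TH537.EQ.T_pos hC he
    intro h
    rw [Measure.real, h] at this
    simp at this
  have hle : ∀ z : Fin N → ℝ,
      ENNReal.ofReal (Real.exp (-(mz hC he z))) * (cN N * volume ((1 / 2 : ℝ) • T C e)) ≤
        ∫⁻ b, phi C e 1 b * phi C e 1 (b + z) := by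
    intro z
    rw [← int_G hC he z]
    exact lintegral_mono fun b => phi_le hC he z b
  have hGint : ∫⁻ z, ENNReal.ofReal (Real.exp (-(mz hC he z))) *
      (cN N * volume ((1 / 2 : ℝ) • T C e)) =
      (cN N * volume (SS C e 1)) * (cN N * volume ((1 / 2 : ℝ) • T C e)) := by
    rw [lintegral_mul_const _ (by have := mz_measurable hC he; fun_prop), int_mz hC he]
  have h1 := lintegral_mono (μ := volume) hle
  rw [hGint, int_F hC he] at h1
  refine (measure_mono (HT_subset hC e)).trans ?_
  rw [SS_smul hC (by norm_num : (0:ℝ) < 1 / 2), Measure.addHaar_smul]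
  rw [Measure.addHaar_smul] at h1
  have hc0 : cN N ≠ 0 := by
    intro h0
    have h2 := int_F hC he
    have h3 := phi_int1 hC he
    rw [h0, zero_mul] at h3
    have h4 : volume (T C e) ≤ 0 := by
      have h5 : ∀ᵐ x, phi C e 1 x = 0 := by
        rw [lintegral_eq_zero_iff (phi_measurable hC 1)] at h3
        exact h3
      have h6 : volume {x | ¬ phi C e 1 x = 0} = 0 := ae_iff.1 h5
      rw [← h6]
      refine measure_mono fun x hx => ?_
      show ¬ phi C e 1 x = 0
      rw [phi, indicator_of_mem hx.1]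
      simp [Real.exp_pos]
    exact hT0 (le_antisymm h4 zero_le)
  have hct := cN_ne_top N
  set κ := ENNReal.ofReal |(1 / 2 : ℝ) ^ Module.finrank ℝ (Fin N → ℝ)| with hκ
  have h2 : (cN N * cN N * volume (T C e)) * (κ * volume (SS C e 1)) ≤
      (cN N * cN N * volume (T C e)) * volume (T C e) := by
    calc (cN N * cN N * volume (T C e)) * (κ * volume (SS C e 1))
        = cN N * volume (SS C e 1) * (cN N * (κ * volume (T C e))) := by ring
      _ ≤ (cN N * volume (T C e)) * (cN N * volume (T C e)) := h1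
      _ = _ := by ring
  exact (ENNReal.mul_le_mul_iff_right (mul_ne_zero (mul_ne_zero hc0 hc0) hT0)
    (ENNReal.mul_ne_top (ENNReal.mul_ne_top hct hct) hT)).1 h2

/-- the inequality `1 ≤ V' χ` -/
lemma base_le {N : ℕ} {C : Set (Fin N → ℝ)} {e c : Fin N → ℝ} (hC : CN C)
    (hp : Pos C e) (hc : c ∈ interior C) :
    1 ≤ volume.real (OI (dl C) e) * (N.factorial * volume.real (T C e)) := by
  obtain ⟨-, hV', h, -⟩ := base hC hp hc
  have h1 := h (1 / 2) (by norm_num) (by norm_num)
  rw [inv_le_iff_one_le_mul₀ hV'] at h1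
  have h2 : volume.real (HT C e (1 / 2)) ≤ volume.real (T C e) :=
    ENNReal.toReal_mono (Pool.Agent.TH537.EQ.T_compact hC hp).measure_lt_top.ne (rs hC hp)
  refine h1.trans ?_
  rw [mul_comm]
  gcongr

/-- **Mahler's inequality for cones with a measure of asymmetry** -/
theorem cone3 {N : ℕ} {C : Set (Fin N → ℝ)} {e c : Fin N → ℝ} (hN : 1 ≤ N) (hC : CN C)
    (hp : Pos C e) (hc : c ∈ interior C) (hce : c ⬝ᵥ e = 1) {t : ℝ} (ht : 1 / 2 ≤ t)
    (ht1 : t ≤ 1)
    (h : 1 ≤ volume.real (OI (dl C) e) * (t ^ N * (N.factorial * volume.real (T C e)))) :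
    (N : ℝ) ^ N * (Real.exp (2 * t - 2) / t ^ 2) ^ N ≤
      (N.factorial * volume.real (T C e)) * (N.factorial * volume.real (T (dl C) c)) := by
  obtain ⟨hC', hp', he', hdd⟩ := Pool.Agent.TH388.EQ.t_DU N C e c hC hp hc
  obtain ⟨hV, hV', hI1, hI2⟩ := base hC hp hc
  have hec : e ⬝ᵥ c = 1 := by rw [dotProduct_comm]; exact hce
  have ht0 : 0 < t := by linarith
  have hN0 : (0:ℝ) < N := by exact_mod_cast hN
  have h1 := inc3 hN hC hp hc hce ht ht1 (inv_pos.2 hV') hV hI1
  have hdd' : OI (dl (dl C)) c = OI C c := by rw [hdd]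
  have h2 := inc3 hN hC' hp' he' hec ht ht1 (inv_pos.2 hV) hV' hI2
  rw [Real.log_inv] at h1 h2
  set χ : ℝ := N.factorial * volume.real (T C e) with hχ
  set χ' : ℝ := N.factorial * volume.real (T (dl C) c) with hχ'
  have hχ0 : 0 < χ := mul_pos (by positivity) (T_pos hC hp)
  have hχ'0 : 0 < χ' := mul_pos (by positivity) (T_pos hC' hp')
  have h3 := Real.log_le_log one_pos h
  rw [Real.log_one, Real.log_mul hV'.ne' (by positivity), Real.log_mul (by positivity) hχ0.ne',
    Real.log_pow] at h3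
  rw [← Real.log_le_log_iff (by positivity) (by positivity), Real.log_mul (by positivity)
    (by positivity), Real.log_mul hχ0.ne' hχ'0.ne', Real.log_pow, Real.log_pow,
    Real.log_div (Real.exp_pos _).ne' (by positivity), Real.log_exp, Real.log_pow]
  push_cast
  set v := Real.log (volume.real (OI C c))
  set v' := Real.log (volume.real (OI (dl C) e))
  set x := Real.log χ
  set x' := Real.log χ'
  set l := Real.log t
  set L := Real.log (N:ℝ)
  -- `(2t-1) h1 + h2`, divided by `2t`
  have e1 : 2 * t * (2 * (1 - t) * v' + N * L) ≤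
      2 * t * ((2 * t - 1) * x + x' + N * (2 - 2 * t + 2 * t * l)) := by
    have := mul_le_mul_of_nonneg_left h1 (by linarith : 0 ≤ 2 * t - 1)
    nlinarith [this, h2]
  have e2 := le_of_mul_le_mul_left e1 (by linarith : 0 < 2 * t)
  have e3 := mul_le_mul_of_nonneg_left h3 (by linarith : 0 ≤ 2 * (1 - t))
  nlinarith [e2, e3]

end Pool.Agent.Y505.MH
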