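import Pool.Agent.Y505.MH.Sx

/-!
# The case of equality in Mahler's inequality at every interior point; centroids
-/

set_option autoImplicit false

open MeasureTheory Set Filter Topology
open scoped ENNReal Pointwise Matrix

namespace Pool.Agent.Y505.MH

open Pool.Agent.TH537.EQ Pool.Agent.TH648.MK Pool.Agent.W570.AV Pool.Agent.W570.NQ

variable {n : ℕ}

lemma prod_eq_iff {τ : Fin (n + 1) → ℝ} (h0 : ∀ i, 0 < τ i) (h1 : ∑ i, τ i = 1) :
    (∏ i, τ i)⁻¹ = ((n : ℝ) + 1) ^ (n + 1) ↔ ∀ i, τ i = 1 / ((n : ℝ) + 1) := by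
  have hn : (0:ℝ) < (n:ℝ) + 1 := by positivity
  constructor
  · intro h
    have h2 := Real.geom_mean_eq_arith_mean_weighted_iff_of_pos' (s := Finset.univ)
      (fun _ : Fin (n + 1) => 1 / ((n : ℝ) + 1)) τ (fun i _ => by positivity) (by
        rw [Finset.sum_const, Finset.card_univ, Fintype.card_fin, nsmul_eq_mul]
        push_cast
        field_simp) (fun i _ => (h0 i).le)
    have h3 : ∑ i, 1 / ((n : ℝ) + 1) * τ i = 1 / ((n : ℝ) + 1) := by
      rw [← Finset.mul_sum, h1, mul_one]
    rw [h3] at h2
    have h4 : ∏ i, τ i ^ (1 / ((n : ℝ) + 1)) = 1 / ((n : ℝ) + 1) := by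
      rw [Real.finsetProd_rpow _ _ (fun i _ => (h0 i).le)]
      have h5 : ∏ i, τ i = (1 / ((n : ℝ) + 1)) ^ (n + 1) := by
        rw [← inv_inv (∏ i, τ i), h, one_div, inv_pow]
      rw [h5, ← Real.rpow_natCast, ← Real.rpow_mul (by positivity)]
      push_cast
      rw [mul_one_div_cancel hn.ne', Real.rpow_one]
    intro i
    exact h2.1 h4 i (Finset.mem_univ i)
  · intro h
    rw [Finset.prod_congr rfl fun i _ => h i, Finset.prod_const, Finset.card_univ,
      Fintype.card_fin, one_div, inv_pow, inv_inv]

/-- membership in a simplex -/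
lemma mem_simplex {q : Fin (n + 1) → (Fin n → ℝ)} {x : Fin n → ℝ} :
    x ∈ convexHull ℝ (range q) ↔ ∃ t : Fin (n + 1) → ℝ, (∀ i, 0 ≤ t i) ∧ ∑ i, t i = 1 ∧
      x = ∑ i, t i • q i := by
  have h1 : x ∈ convexHull ℝ (range q) ↔
      (Fin.cons 1 x : Fin (n + 1) → ℝ) ∈ coneOver (convexHull ℝ (range q)) := by
    constructor
    · intro hx
      exact ⟨1, zero_le_one, x, hx, by rw [one_smul]⟩
    · rintro ⟨t, ht, y, hy, h⟩
      have e1 : (1:ℝ) = t := by simpa using congrFun h 0
      have e2 : x = t • y := by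
        funext k
        simpa using congrFun h k.succ
      rw [e2, ← e1, one_smul]
      exact hy
  rw [h1, coneOver_simplex]
  constructor
  · rintro ⟨t, ht, h⟩
    rw [sum_cons_one] at h
    refine ⟨t, ht, ?_, ?_⟩
    · simpa using (congrFun h 0).symm
    · funext k
      simpa using congrFun h k.succ
  · rintro ⟨t, ht, h2, rfl⟩
    refine ⟨t, ht, ?_⟩
    rw [sum_cons_one, h2]

lemma int_sx : ∫ x in sx n 1, x = volume.real (sx n 1) • cc n := by
  have hk : IsCompact (sx n 1) := sx_comp 1 zero_le_one
  have hid : IntegrableOn (fun x : Fin n → ℝ => x) (sx n 1) :=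
    continuous_id.continuousOn.integrableOn_compact hk
  funext i
  have h0 : (∫ x in sx n 1, x) i = ∫ x in sx n 1, x i :=
    ((ContinuousLinearMap.proj (R := ℝ) (φ := fun _ : Fin n => ℝ) i).integral_comp_comm hid).symm
  have h1 := cc_centroid (n := n) i
  have h2 : ∫ x in tr (cc n) (sx n 1), x i = ∫ x in sx n 1, (x i - cc n i) := by
    have hmp := measurePreserving_sub_right (volume : Measure (Fin n → ℝ)) (cc n)
    have hemb : MeasurableEmbedding (fun x : Fin n → ℝ => x - cc n) :=
      (Homeomorph.subRight (cc n)).measurableEmbedding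
    unfold tr
    rw [hmp.setIntegral_image_emb hemb]
    rfl
  have hxi : IntegrableOn (fun x : Fin n → ℝ => x i) (sx n 1) := by
    have : Continuous fun x : Fin n → ℝ => x i := by fun_prop
    exact this.continuousOn.integrableOn_compact hk
  rw [h2, integral_sub hxi (continuousOn_const.integrableOn_compact hk), setIntegral_const] at h1
  rw [h0]
  show _ = volume.real (sx n 1) * cc n i
  simp only [smul_eq_mul] at h1
  linarith

/-- **the centroid of a simplex** -/
lemma int_simplex {q : Fin (n + 1) → (Fin n → ℝ)}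
    (hv : 0 < volume.real (convexHull ℝ (range q))) :
    ∫ x in convexHull ℝ (range q), x =
      volume.real (convexHull ℝ (range q)) • ((1 / ((n : ℝ) + 1)) • ∑ i, q i) := by
  have hn : (0:ℝ) < (n:ℝ) + 1 := by positivity
  set d : Fin n → (Fin n → ℝ) := fun i => q i.succ - q 0 with hd
  set A : (Fin n → ℝ) →ₗ[ℝ] (Fin n → ℝ) := Matrix.toLin' (Matrix.of d)ᵀ with hA
  have hAx : ∀ x, A x = ∑ i, x i • d i := fun x => (sum_smul_eq d x).symm
  set f : (Fin n → ℝ) → (Fin n → ℝ) := fun x => q 0 + A x with hf
  have hK : convexHull ℝ (range q) = f '' (sx n 1) := by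
    ext x
    rw [mem_simplex]
    constructor
    · rintro ⟨t, ht, h1, rfl⟩
      rw [Fin.sum_univ_succ] at h1
      refine ⟨fun i => t i.succ, ⟨fun i => ht _, by linarith [ht 0]⟩, ?_⟩
      rw [hf]
      simp only
      rw [hAx, Fin.sum_univ_succ, hd]
      simp only [smul_sub]
      rw [Finset.sum_sub_distrib, ← Finset.sum_smul]
      have e : t 0 = 1 - ∑ i : Fin n, t i.succ := by linarith
      rw [e, sub_smul, one_smul]
      abel
    · rintro ⟨s, ⟨hs, hs1⟩, rfl⟩
      refine ⟨Fin.cons (1 - ∑ i, s i) s, ?_, ?_, ?_⟩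
      · intro i
        refine Fin.cases ?_ (fun j => ?_) i
        · rw [Fin.cons_zero]; linarith
        · rw [Fin.cons_succ]; exact hs j
      · rw [Fin.sum_univ_succ]
        simp
      · rw [Fin.sum_univ_succ, hf]
        simp only [Fin.cons_zero, Fin.cons_succ]
        rw [hAx, hd]
        simp only [smul_sub]
        rw [Finset.sum_sub_distrib, ← Finset.sum_smul, sub_smul, one_smul]
        abel
  have himg : f '' (sx n 1) = (fun x => q 0 + x) '' (A '' (sx n 1)) := by
    rw [image_image]
  have hvol : volume.real (f '' (sx n 1)) = |LinearMap.det A| * volume.real (sx n 1) := by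
    rw [himg, Measure.real, image_add_left, measure_preimage_add,
      Measure.addHaar_image_linearMap, ENNReal.toReal_mul, ENNReal.toReal_ofReal (abs_nonneg _)]
    rfl
  rw [hK] at hv ⊢
  have hdet : LinearMap.det A ≠ 0 := by
    intro h0
    rw [hvol, h0, abs_zero, zero_mul] at hv
    exact lt_irrefl _ hv
  set Ac : (Fin n → ℝ) →L[ℝ] (Fin n → ℝ) := LinearMap.toContinuousLinearMap A with hAc
  have hinj : Function.Injective f := by
    intro x y hxy
    have h1 : A x = A y := by
      simpa [hf] using hxy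
    have h2 : LinearMap.ker A = ⊥ := by
      by_contra hk
      exact hdet (LinearMap.det_eq_zero_iff_ker_ne_bot.2 hk)
    exact LinearMap.ker_eq_bot.1 h2 h1
  have hfd : ∀ x ∈ sx n 1, HasFDerivWithinAt f Ac (sx n 1) x := by
    intro x _
    have h1 : HasFDerivAt (fun x => q 0 + Ac x) Ac x := Ac.hasFDerivAt.const_add (q 0)
    exact h1.hasFDerivWithinAt
  rw [integral_image_eq_integral_abs_det_fderiv_smul volume (sx_meas n 1) hfd
    (hinj.injOn) (fun x => x), hvol]
  have hdet2 : Ac.det = LinearMap.det A := rfl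
  rw [hdet2, integral_smul]
  have hk : IsCompact (sx n 1) := sx_comp 1 zero_le_one
  have hid : IntegrableOn (fun x : Fin n → ℝ => x) (sx n 1) :=
    continuous_id.continuousOn.integrableOn_compact hk
  have h2 : ∫ x in sx n 1, f x = volume.real (sx n 1) • f (cc n) := by
    have h3 : ∫ x in sx n 1, Ac x = Ac (∫ x in sx n 1, x) := Ac.integral_comp_comm hid
    have h4 : ∫ x in sx n 1, f x = ∫ x in sx n 1, (q 0 + Ac x) := rfl
    rw [h4, integral_add (continuousOn_const.integrableOn_compact hk)
      (Ac.continuous.continuousOn.integrableOn_compact hk), setIntegral_const, h3, int_sx,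
      map_smul, ← smul_add]
    rfl
  rw [h2, smul_smul, mul_smul, mul_smul]
  congr 2
  rw [hf]
  simp only
  rw [hAx, hd]
  unfold cc
  simp only
  rw [← Finset.smul_sum, Finset.sum_sub_distrib, Finset.sum_const, Finset.card_univ,
    Fintype.card_fin, Fin.sum_univ_succ, smul_sub, smul_add, ← Nat.cast_smul_eq_nsmul ℝ, smul_smul]
  have e : q 0 = (1 / ((n:ℝ) + 1) + 1 / ((n:ℝ) + 1) * n) • q 0 := by
    have : (1 / ((n:ℝ) + 1) + 1 / ((n:ℝ) + 1) * n) = 1 := by field_simp; ring
    rw [this, one_smul]
  nth_rewrite 1 [e]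
  rw [add_smul]
  abel

/-- the centroid of a convex body is an interior point -/
lemma centroid_mem {K : Set (Fin n → ℝ)} (hc : IsCompact K) (hv : Convex ℝ K)
    (hi : (interior K).Nonempty) {z : Fin n → ℝ} (hz : ∫ x in K, x = volume.real K • z) :
    z ∈ interior K := by
  by_contra hcon
  obtain ⟨f, hf⟩ := geometric_hahn_banach_open_point hv.interior isOpen_interior hcon
  have hint : IntegrableOn (fun x : Fin n → ℝ => x) K :=
    continuousOn_id.integrableOn_compact hc
  have h1 : ∫ x in K, (f x - f z) = 0 := by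
    have := f.integral_comp_comm hint
    rw [integral_sub (f.integrable_comp hint) (continuousOn_const.integrableOn_compact hc),
      setIntegral_const, this, hz, map_smul, sub_self]
  have hfr : volume (frontier K) = 0 := hv.addHaar_frontier volume
  have h2 : ∫ x in interior K, (f x - f z) = 0 := by
    rw [← h1]
    apply setIntegral_congr_set
    exact interior_ae_eq_of_null_frontier hfr
  have hpos : 0 < ∫ x in interior K, -(f x - f z) := by
    rw [setIntegral_pos_iff_support_of_nonneg_ae]
    · have hsub : interior K ⊆ Function.support (fun x => -(f x - f z)) ∩ interior K := by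
        intro x hx
        refine ⟨?_, hx⟩
        have := hf x hx
        simp only [Function.mem_support]
        linarith
      exact lt_of_lt_of_le (isOpen_interior.measure_pos volume hi) (measure_mono hsub)
    · rw [Filter.EventuallyLE, ae_restrict_iff' isOpen_interior.measurableSet]
      exact Filter.Eventually.of_forall fun x hx => by
        have := hf x hx
        simp only [Pi.zero_apply]
        linarith
    · have hi : IntegrableOn (fun x => -(f x - f z)) K :=
        ((f.integrable_comp hint).sub (continuousOn_const.integrableOn_compact hc)).neg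
      exact hi.mono_set interior_subset
  rw [integral_neg, h2] at hpos
  simp at hpos

lemma vol_pos' {K : Set (Fin n → ℝ)} (hc : IsCompact K) (hi : (interior K).Nonempty) :
    0 < volume.real K := by
  rw [Measure.real, ENNReal.toReal_pos_iff]
  exact ⟨Measure.measure_pos_of_nonempty_interior _ hi, hc.measure_lt_top⟩

/-- **the case of equality in Mahler's inequality at an interior point** -/
theorem eq_iff {K : Set (Fin n → ℝ)} (hc : IsCompact K) (hv : Convex ℝ K) {z : Fin n → ℝ}
    (hz : z ∈ interior K) :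
    volume.real K * volume.real (plr K z) = ((n : ℝ) + 1) ^ (n + 1) / (n.factorial : ℝ) ^ 2 ↔
      (∃ p : Fin (n + 1) → (Fin n → ℝ), AffineIndependent ℝ p ∧ K = convexHull ℝ (range p)) ∧
        ∫ x in K, x = volume.real K • z := by
  have hn : (0:ℝ) < (n:ℝ) + 1 := by positivity
  have hF : (0:ℝ) < (n.factorial : ℝ) ^ 2 := by positivity
  have hK0 : 0 < volume.real K := vol_pos' hc ⟨z, hz⟩
  -- the value for a simplex
  have key : ∀ p : Fin (n + 1) → (Fin n → ℝ), AffineIndependent ℝ p → K = convexHull ℝ (range p) →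
      (volume.real K * volume.real (plr K z) = ((n : ℝ) + 1) ^ (n + 1) / (n.factorial : ℝ) ^ 2 ↔
        ∫ x in K, x = volume.real K • z) := by
    intro p hp hKp
    set L := (fun x => x - z) '' K with hL
    have hNB : NB L := NB_sub hc hv hz
    have hLq : L = convexHull ℝ (range fun i => p i - z) := by
      rw [hL, hKp]
      have h4 : (fun x : Fin n → ℝ => x - z) '' convexHull ℝ (range p) =
          convexHull ℝ ((fun x : Fin n → ℝ => x - z) '' range p) := by
        have h5 := AffineMap.image_convexHull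
          ((AffineEquiv.vaddConst ℝ (-z) : (Fin n → ℝ) ≃ᵃ[ℝ] (Fin n → ℝ)).toAffineMap) (range p)
        have h6 : ⇑((AffineEquiv.vaddConst ℝ (-z) : (Fin n → ℝ) ≃ᵃ[ℝ] (Fin n → ℝ)).toAffineMap) =
            fun x : Fin n → ℝ => x - z := by
          funext x
          show x + -z = x - z
          abel
        rwa [h6] at h5
      rw [h4, ← range_comp]
      rfl
    have hq : AffineIndependent ℝ fun i => p i - z := by
      have h5 := hp.map' (AffineEquiv.vaddConst ℝ (-z) : (Fin n → ℝ) ≃ᵃ[ℝ] (Fin n → ℝ)).toAffineMap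
        (AffineEquiv.vaddConst ℝ (-z) : (Fin n → ℝ) ≃ᵃ[ℝ] (Fin n → ℝ)).injective
      have h6 : (⇑((AffineEquiv.vaddConst ℝ (-z) : (Fin n → ℝ) ≃ᵃ[ℝ] (Fin n → ℝ)).toAffineMap) ∘ p) =
          fun i => p i - z := by
        funext i
        show p i + -z = p i - z
        abel
      rwa [h6] at h5
    obtain ⟨τ, hτ0, hτ1, hτ2, huniq, hval⟩ := simplex_value hNB hq hLq
    have hvL : volume.real L = volume.real K := by
      rw [hL, Measure.real, vol_sub]; rfl
    rw [hvL, hL, pol_sub] at hval
    have hcen : ∫ x in K, x = volume.real K • ((1 / ((n : ℝ) + 1)) • ∑ i, p i) := by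
      rw [hKp]
      exact int_simplex (by rw [← hKp]; exact hK0)
    have h1 : volume.real K * volume.real (plr K z) = ((n : ℝ) + 1) ^ (n + 1) / (n.factorial : ℝ) ^ 2 ↔
        ∀ i, τ i = 1 / ((n : ℝ) + 1) := by
      rw [eq_div_iff hF.ne', mul_comm _ ((n.factorial : ℝ) ^ 2), hval]
      exact prod_eq_iff hτ0 hτ1
    rw [h1, hcen]
    have hsum1 : ∑ _i : Fin (n + 1), 1 / ((n : ℝ) + 1) = 1 := by
      rw [Finset.sum_const, Finset.card_univ, Fintype.card_fin, nsmul_eq_mul]
      push_cast
      field_simp
    have hsum2 : ∑ i : Fin (n + 1), (1 / ((n : ℝ) + 1)) • (p i - z) =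
        (1 / ((n : ℝ) + 1)) • ∑ i, p i - z := by
      simp only [smul_sub]
      rw [Finset.sum_sub_distrib, ← Finset.smul_sum, ← Finset.sum_smul, hsum1, one_smul]
    constructor
    · intro h
      congr 1
      have h2 : ∑ i : Fin (n + 1), (1 / ((n : ℝ) + 1)) • (p i - z) = 0 := by
        rw [← hτ2]
        exact Finset.sum_congr rfl fun i _ => by rw [h i]
      rw [hsum2] at h2
      exact sub_eq_zero.1 h2
    · intro h i
      have h2 : (1 / ((n : ℝ) + 1)) • ∑ i, p i = z := smul_right_injective _ hK0.ne' h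
      have h3 := huniq (fun _ => 1 / ((n : ℝ) + 1)) hsum1 (by rw [hsum2, h2, sub_self])
      exact (congrFun h3 i).symm
  constructor
  · intro h
    obtain ⟨p, hp, hKp⟩ := (mahler hc hv hz).2 h.le
    exact ⟨⟨p, hp, hKp⟩, (key p hp hKp).1 h⟩
  · rintro ⟨⟨p, hp, hKp⟩, h⟩
    exact (key p hp hKp).2 h

end Pool.Agent.Y505.MH
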