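import Pool.Agent.Y505.MA.P3
import Pool.Agent.TH909.EQ.SEC
import Pool.Agent.TH879.EQ.POW
import Pool.Agent.TH537.EQ.Basic

/-!
# The three-piece inequality for cones (tensor powers)
-/

set_option autoImplicit false

open MeasureTheory Set Filter Topology
open scoped ENNReal Pointwise Matrix

namespace Pool.Agent.Y505.MH

open Pool.Agent.TH537.EQ Pool.Agent.TH251.MP

/-- the three-piece inequality for bodies, in logarithmic form -/
lemma body3 {k : ℕ} {K : Set (Fin k → ℝ)} (hK : Pool.Agent.TH537.EQ.NB K) {t s : ℝ}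
    (ht : 1 / 2 ≤ t) (ht1 : t ≤ 1) (hs : 0 < s)
    (h : ∀ u : ℝ, 0 < u → u < 1 → s ≤ volume.real (HU K u)) :
    Real.log (volume.real (HH K)) ≤ 2 * t * Real.log (volume.real K) - (2 * t - 1) * Real.log s +
      k * (1 - 2 * t + 2 * t * Real.log t) := by
  have hK' : H801NS.NB K := ⟨hK.comp, hK.conv, hK.zero⟩
  have h1 := Pool.Agent.Y505.MA.pair3 hK' ht ht1 hs h
  have h2 := WW_ge_HH hK'
  have hH := Pool.Agent.TH251.MP.nb_HH hK'
  have hHv : 0 < volume.real (HH K) := vol_pos hH
  have hKv : 0 < volume.real K := vol_pos hK'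
  have hF : (0:ℝ) < k.factorial := by positivity
  have h3 := Real.log_le_log (VV_pos hH) h2
  have h4 := h3.trans h1
  unfold VV at h4
  rw [Real.log_mul hF.ne' hHv.ne', Real.log_mul hF.ne' hKv.ne', Real.log_mul hF.ne' hs.ne'] at h4
  linarith

lemma log_fact_ge (n : ℕ) : (n : ℝ) * Real.log n - n ≤ Real.log n.factorial := by
  rcases Nat.eq_zero_or_pos n with rfl | hn
  · simp
  · have h := fact_ge n
    have hn' : (0:ℝ) < n := by exact_mod_cast hn
    have h2 := Real.log_le_log (by positivity) h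
    rw [Real.log_mul (by positivity) (Real.exp_pos _).ne', Real.log_pow, Real.log_exp] at h2
    linarith

/-- **the three-piece inequality for cones** -/
theorem inc3 {N : ℕ} {C : Set (Fin N → ℝ)} {e c : Fin N → ℝ} (hN : 1 ≤ N) (hC : CN C)
    (hp : Pos C e) (hc : c ∈ interior C) (hce : c ⬝ᵥ e = 1) {t a : ℝ} (ht : 1 / 2 ≤ t)
    (ht1 : t ≤ 1) (ha : 0 < a) (hV0 : 0 < volume.real (OI C c))
    (h : ∀ u : ℝ, 0 < u → u < 1 → a ≤ N.factorial * volume.real (HT C e u)) :
    Real.log (volume.real (OI C c)) + N * Real.log N ≤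
      2 * t * Real.log (N.factorial * volume.real (T C e)) - (2 * t - 1) * Real.log a +
        N * (2 - 2 * t + 2 * t * Real.log t) := by
  set V : ℝ := volume.real (OI C c) with hV
  set χ : ℝ := N.factorial * volume.real (T C e) with hχ
  have hχ0 : 0 < χ := mul_pos (by positivity) (T_pos hC hp)
  have hN0 : (0:ℝ) < N := by exact_mod_cast hN
  set X : ℝ := Real.log V + N * Real.log N - (2 * t * Real.log χ - (2 * t - 1) * Real.log a +
        N * (2 - 2 * t + 2 * t * Real.log t)) with hX
  -- the key inequality for the powers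
  have key : ∀ m : ℕ, 1 ≤ m → m * X + (1 - 2 * t + 2 * t * Real.log t) ≤
      2 * t * Real.log (m * N) := by
    intro m hm
    have hm0 : (0 : ℝ) < m := by exact_mod_cast hm
    obtain ⟨k, hk⟩ : ∃ k, m * N = k + 1 := ⟨m * N - 1, by
      have : 1 ≤ m * N := Nat.mul_pos hm hN
      omega⟩
    have hpow : ∀ M : ℕ, M = m * N → ∃ (D : Set (Fin M → ℝ)) (f d : Fin M → ℝ), CN D ∧
        Pos D f ∧ d ∈ interior D ∧ d ⬝ᵥ f = m * (c ⬝ᵥ e) ∧
        volume.real (OI D d) = volume.real (OI C c) ^ m ∧
        M.factorial * volume.real (T D f) = (N.factorial * volume.real (T C e)) ^ m ∧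
        ∀ u : ℝ, 0 ≤ u → u ≤ 1 →
          M.factorial * volume.real (HT D f u) = (N.factorial * volume.real (HT C e u)) ^ m := by
      rintro M rfl
      exact Pool.Agent.TH879.EQ.t_POW N m C e c hC hp hc
    obtain ⟨D, f, d, hD, hDf, hd, hdf, hDV, hDT, hDH⟩ := hpow (k + 1) hk.symm
    rw [hce, mul_one] at hdf
    set d' := (m : ℝ)⁻¹ • d with hd'
    have hd'i : d' ∈ interior D := hD.smul_interior (inv_pos.2 hm0) hd
    have hd'f : d' ⬝ᵥ f = 1 := by
      rw [hd', smul_dotProduct, hdf, smul_eq_mul, inv_mul_cancel₀ hm0.ne']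
    obtain ⟨K, δ, hK, hδ, hK1, hK2, hK3⟩ := Pool.Agent.TH909.EQ.t_SEC k D f d' hD hDf hd'i hd'f
    rw [hd', vol_OI_smul hD (inv_pos.2 hm0), hDV, ← hV] at hK1
    rw [← hχ] at hDT
    set F : ℝ := ((k + 1).factorial : ℝ) with hF
    have hF0 : 0 < F := by rw [hF]; positivity
    have hk1 : (0:ℝ) < (k:ℝ) + 1 := by positivity
    have hKv : volume.real K = (k + 1) * χ ^ m / (F * δ) := by
      rw [eq_div_iff (by positivity)]
      calc volume.real K * (F * δ) = F * (δ * volume.real K) := by ring
        _ = F * ((k + 1) * volume.real (T D f)) := by rw [hK2]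
        _ = (k + 1) * (F * volume.real (T D f)) := by ring
        _ = _ := by rw [hDT]
    have hHU : ∀ u : ℝ, 0 ≤ u → u ≤ 1 →
        (N.factorial * volume.real (HT C e u)) ^ m / (F * δ) ≤ volume.real (HU K u) := by
      intro u hu0 hu1
      rw [div_le_iff₀ (by positivity), ← hDH u hu0 hu1]
      calc F * volume.real (HT D f u) ≤ F * (δ * volume.real (HU K u)) := by
            gcongr; exact hK3 u hu0 hu1
        _ = _ := by ring
    have h4 := body3 hK ht ht1 (s := a ^ m / (F * δ)) (by positivity)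
      (fun u hu0 hu1 => le_trans (by gcongr; exact h u hu0 hu1) (hHU u hu0.le hu1.le))
    -- logarithms
    have hHH : 0 < volume.real (HH K) := by
      have hK' : H801NS.NB K := ⟨hK.comp, hK.conv, hK.zero⟩
      exact vol_pos (Pool.Agent.TH251.MP.nb_HH hK')
    have h5 : m * Real.log V - (k + 1) * Real.log m ≤ Real.log δ + Real.log (volume.real (HH K)) := by
      have h6 := Real.log_le_log (by positivity) hK1
      rw [Real.log_mul (by positivity) (by positivity), Real.log_pow, Real.log_pow,
        Real.log_inv, Real.log_mul hδ.ne' hHH.ne'] at h6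
      push_cast at h6
      linarith
    have h6 : Real.log (volume.real K) =
        Real.log (k + 1) + m * Real.log χ - Real.log F - Real.log δ := by
      rw [hKv, Real.log_div (by positivity) (by positivity), Real.log_mul (by positivity)
        (by positivity), Real.log_pow, Real.log_mul hF0.ne' hδ.ne']
      ring
    have h7 : Real.log (a ^ m / (F * δ)) = m * Real.log a - Real.log F - Real.log δ := by
      rw [Real.log_div (by positivity) (by positivity), Real.log_pow, Real.log_mul hF0.ne' hδ.ne']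
      ring
    rw [h6, h7] at h4
    have h8 := log_fact_ge (k + 1)
    rw [← hF] at h8
    have hkR : ((k : ℝ) + 1) = m * N := by exact_mod_cast hk.symm
    have hkR' : (((k + 1 : ℕ) : ℝ)) = m * N := by push_cast; exact hkR
    rw [hkR'] at h8
    have hk2 : (k : ℝ) = m * N - 1 := by linarith
    rw [hkR] at h5 h4
    rw [hk2] at h4
    have h9 : Real.log (m * N) = Real.log m + Real.log N := Real.log_mul hm0.ne' hN0.ne'
    have h10 : (m : ℝ) * N * Real.log (m * N) = m * N * Real.log m + m * N * Real.log N := by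
      rw [h9]; ring
    rw [hX]
    nlinarith [h4, h5, h8, h10]
  -- conclusion
  by_contra hcon
  push Not at hcon
  have hXpos : 0 < X := by rw [hX]; linarith
  have hlim := Real.tendsto_pow_log_div_mul_add_atTop (X / N) (1 - 2 * t + 2 * t * Real.log t) 1
    (by positivity)
  have hlim2 : Tendsto (fun m : ℕ => (m : ℝ) * N) atTop atTop :=
    tendsto_natCast_atTop_atTop.atTop_mul_const hN0
  have hlim3 := hlim.comp hlim2
  have ht0 : 0 < 2 * t := by linarith
  have h1 : ∀ᶠ m : ℕ in atTop, Real.log (m * N) ^ 1 / (X / N * (m * N) +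
      (1 - 2 * t + 2 * t * Real.log t)) < (2 * t + 1)⁻¹ :=
    hlim3.eventually_lt_const (by positivity)
  have h2 : ∀ᶠ m : ℕ in atTop, 0 < X / N * ((m:ℝ) * N) + (1 - 2 * t + 2 * t * Real.log t) := by
    have h3 : Tendsto (fun m : ℕ => X / N * ((m:ℝ) * N) + (1 - 2 * t + 2 * t * Real.log t))
        atTop atTop := by
      refine tendsto_atTop_add_const_right _ _ ?_
      exact hlim2.const_mul_atTop (by positivity)
    exact h3.eventually_gt_atTop 0
  obtain ⟨m, ⟨hm1, hm2⟩, hm3⟩ := ((h1.and h2).and (eventually_ge_atTop 1)).exists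
  have h4 := key m hm3
  rw [pow_one, div_lt_iff₀ hm2, inv_mul_eq_div, lt_div_iff₀ (by positivity)] at hm1
  have h5 : X / N * ((m:ℝ) * N) = m * X := by field_simp
  rw [h5] at hm1 hm2
  have h6 : 0 ≤ Real.log (m * N) := Real.log_nonneg (by
    have a1 : (1:ℝ) ≤ m := by exact_mod_cast hm3
    have a2 : (1:ℝ) ≤ N := by exact_mod_cast hN
    nlinarith)
  nlinarith

end Pool.Agent.Y505.MH
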