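import Pool.Agent.Y505.MH.Bd3
import Pool.Agent.TH648.MK.Simp
import Pool.Agent.W570.NQ.L2

/-!
# The volume product of simplices at every interior point
-/

set_option autoImplicit false

open MeasureTheory Set Filter Topology
open scoped ENNReal Pointwise Matrix

namespace Pool.Agent.Y505.MH

open Pool.Agent.TH537.EQ Pool.Agent.TH648.MK

section cone

variable {N : ℕ}

lemma sum_smul_eq (b : Fin N → (Fin N → ℝ)) (t : Fin N → ℝ) :
    (∑ i, t i • b i) = Matrix.toLin' (Matrix.of b)ᵀ t := by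
  rw [Matrix.toLin'_apply]
  funext j
  simp only [Finset.sum_apply, Pi.smul_apply, smul_eq_mul, Matrix.mulVec, dotProduct,
    Matrix.transpose_apply, Matrix.of_apply]
  exact Finset.sum_congr rfl fun i _ => mul_comm _ _

/-- the volume of a truncated simplicial cone -/
lemma vol_T_nn (b : Fin N → (Fin N → ℝ)) (e : Fin N → ℝ)
    (he : ∀ i, 0 < b i ⬝ᵥ e) : volume.real {x | x ∈ nnspan b ∧ x ⬝ᵥ e ≤ 1} =
      |(Matrix.of b).det| / (N.factorial * ∏ i, b i ⬝ᵥ e) := by
  set c : Fin N → ℝ := fun i => b i ⬝ᵥ e with hc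
  set b' : Fin N → (Fin N → ℝ) := fun i => (c i)⁻¹ • b i with hb'
  have hcn : ∀ i, c i ≠ 0 := fun i => (he i).ne'
  have he' : ∀ i, b' i ⬝ᵥ e = 1 := by
    intro i
    simp only [hb', smul_dotProduct, smul_eq_mul]
    exact inv_mul_cancel₀ (hcn i)
  have hCC : nnspan b = nnspan b' := by
    ext x
    constructor
    · rintro ⟨t, ht, rfl⟩
      refine ⟨fun i => t i * c i, fun i => mul_nonneg (ht i) (he i).le, ?_⟩
      refine Finset.sum_congr rfl fun i _ => ?_
      simp only [hb', smul_smul]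
      rw [mul_assoc, mul_inv_cancel₀ (hcn i), mul_one]
    · rintro ⟨t, ht, rfl⟩
      refine ⟨fun i => t i * (c i)⁻¹, fun i => mul_nonneg (ht i) (inv_nonneg.2 (he i).le), ?_⟩
      refine Finset.sum_congr rfl fun i _ => ?_
      simp only [hb', smul_smul]
  have hdot : ∀ t : Fin N → ℝ, (∑ i, t i • b' i) ⬝ᵥ e = ∑ i, t i := by
    intro t
    rw [sum_dotProduct]
    exact Finset.sum_congr rfl fun i _ => by rw [smul_dotProduct, he' i, smul_eq_mul, mul_one]
  have e1 : {x | x ∈ nnspan b ∧ x ⬝ᵥ e ≤ 1} =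
      Matrix.toLin' (Matrix.of b')ᵀ '' Pool.Agent.TH264.MC.S N := by
    rw [hCC]
    ext x
    constructor
    · rintro ⟨⟨t, ht, rfl⟩, h1⟩
      rw [hdot] at h1
      exact ⟨t, ⟨ht, h1⟩, (sum_smul_eq b' t).symm⟩
    · rintro ⟨t, ⟨ht, h1⟩, rfl⟩
      refine ⟨⟨t, ht, (sum_smul_eq b' t).symm⟩, ?_⟩
      rw [← sum_smul_eq, hdot]
      exact h1
  have e2 : (Matrix.of b').det = (∏ i, (c i)⁻¹) * (Matrix.of b).det := by
    rw [← Matrix.det_mul_column]
    congr 1
  rw [e1, Measure.real, Measure.addHaar_image_linearMap, LinearMap.det_toLin',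
    Matrix.det_transpose, ENNReal.toReal_mul, ENNReal.toReal_ofReal (abs_nonneg _), e2, abs_mul]
  have hS : (volume (Pool.Agent.TH264.MC.S N)).toReal = 1 / (N.factorial : ℝ) :=
    Pool.Agent.TH264.MC.volume_S N
  have hp : 0 < ∏ i, c i := Finset.prod_pos fun i _ => he i
  rw [hS, Finset.prod_inv_distrib, abs_inv, abs_of_pos hp]
  field_simp

/-- the dual basis -/
noncomputable def dual (b : Fin N → (Fin N → ℝ)) : Fin N → (Fin N → ℝ) := fun j k =>
  (Matrix.of b)⁻¹ k j

lemma dot_dual {b : Fin N → (Fin N → ℝ)} (hb : LinearIndependent ℝ b) (i j : Fin N) :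
    b i ⬝ᵥ dual b j = if i = j then 1 else 0 := by
  have hdet : (Matrix.of b).det ≠ 0 := det_ne_zero_of_li (Matrix.of b) hb
  have h := Matrix.mul_nonsing_inv (Matrix.of b) (isUnit_iff_ne_zero.2 hdet)
  have h2 := congrFun (congrFun h i) j
  rw [Matrix.mul_apply, Matrix.one_apply] at h2
  exact h2

lemma dl_nnspan {b : Fin N → (Fin N → ℝ)} (hb : LinearIndependent ℝ b) :
    dl (nnspan b) = nnspan (dual b) := by
  have hdet : (Matrix.of b).det ≠ 0 := det_ne_zero_of_li (Matrix.of b) hb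
  ext y
  constructor
  · intro hy
    have h1 : ∀ i, 0 ≤ b i ⬝ᵥ y := by
      intro i
      refine hy (b i) ⟨Pi.single i 1, ?_, ?_⟩
      · intro j
        by_cases hj : j = i
        · subst hj; simp
        · simp [hj]
      · simp [Pi.single_apply]
    refine ⟨fun j => b j ⬝ᵥ y, h1, ?_⟩
    have h2 : (Matrix.of b)⁻¹ *ᵥ ((Matrix.of b) *ᵥ y) = y := by
      rw [Matrix.mulVec_mulVec, Matrix.nonsing_inv_mul _ (isUnit_iff_ne_zero.2 hdet),
        Matrix.one_mulVec]
    funext k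
    have h3 := congrFun h2 k
    rw [← h3]
    simp only [Finset.sum_apply, Pi.smul_apply, smul_eq_mul, Matrix.mulVec, dotProduct, dual]
    exact Finset.sum_congr rfl fun i _ => mul_comm _ _
  · rintro ⟨s, hs, rfl⟩ x ⟨t, ht, rfl⟩
    rw [sum_dotProduct]
    refine Finset.sum_nonneg fun i _ => ?_
    rw [smul_dotProduct, dotProduct_sum, smul_eq_mul]
    refine mul_nonneg (ht i) (Finset.sum_nonneg fun j _ => ?_)
    rw [dotProduct_smul, dot_dual hb, smul_eq_mul]
    split_ifs
    · simpa using hs j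
    · simp

lemma det_dual {b : Fin N → (Fin N → ℝ)} :
    (Matrix.of (dual b)).det = ((Matrix.of b).det)⁻¹ := by
  have : Matrix.of (dual b) = ((Matrix.of b)⁻¹)ᵀ := by
    ext i j
    rfl
  rw [this, Matrix.det_transpose, Matrix.det_nonsing_inv, Ring.inverse_eq_inv']

/-- **the value for simplicial cones** -/
theorem value {b : Fin N → (Fin N → ℝ)} (hb : LinearIndependent ℝ b) {e c : Fin N → ℝ}
    (he : ∀ i, b i ⬝ᵥ e = 1) {τ : Fin N → ℝ} (hτ : ∀ i, 0 < τ i) (hc : c = ∑ i, τ i • b i) :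
    (N.factorial * volume.real (T (nnspan b) e)) *
      (N.factorial * volume.real (T (dl (nnspan b)) c)) = (∏ i, τ i)⁻¹ := by
  have hdet : (Matrix.of b).det ≠ 0 := det_ne_zero_of_li (Matrix.of b) hb
  have h1 : volume.real (T (nnspan b) e) = |(Matrix.of b).det| / (N.factorial * ∏ i, b i ⬝ᵥ e) :=
    vol_T_nn b e fun i => by rw [he i]; exact one_pos
  have h3 : ∀ j, dual b j ⬝ᵥ c = τ j := by
    intro j
    rw [dotProduct_comm, hc, sum_dotProduct]
    simp only [smul_dotProduct, dot_dual hb, smul_eq_mul]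
    simp
  have h2 : volume.real (T (dl (nnspan b)) c) =
      |(Matrix.of (dual b)).det| / (N.factorial * ∏ i, dual b i ⬝ᵥ c) := by
    rw [dl_nnspan hb]
    exact vol_T_nn (dual b) c fun i => by rw [h3 i]; exact hτ i
  have h4 : ∏ i, b i ⬝ᵥ e = 1 := Finset.prod_eq_one fun i _ => he i
  have h5 : ∏ i, dual b i ⬝ᵥ c = ∏ i, τ i := Finset.prod_congr rfl fun i _ => h3 i
  have hp : 0 < ∏ i, τ i := Finset.prod_pos fun i _ => hτ i
  have hF : (N.factorial : ℝ) ≠ 0 := by positivity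
  have hD : |(Matrix.of b).det| ≠ 0 := abs_ne_zero.2 hdet
  rw [h1, h2, h4, h5, det_dual, abs_inv]
  field_simp

end cone

variable {n : ℕ}

/-- **the volume product of a simplex** with barycentric coordinates `τ` of the origin -/
theorem simplex_value {L : Set (Fin n → ℝ)} (hL : NB L) {q : Fin (n + 1) → (Fin n → ℝ)}
    (hq : AffineIndependent ℝ q) (hLq : L = convexHull ℝ (range q)) :
    ∃ τ : Fin (n + 1) → ℝ, (∀ i, 0 < τ i) ∧ ∑ i, τ i = 1 ∧ ∑ i, τ i • q i = 0 ∧
      (∀ σ : Fin (n + 1) → ℝ, ∑ i, σ i = 1 → ∑ i, σ i • q i = 0 → σ = τ) ∧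
      (n.factorial : ℝ) ^ 2 * (volume.real L * volume.real (pol L)) = (∏ i, τ i)⁻¹ := by
  set b : Fin (n + 1) → (Fin (n + 1) → ℝ) := fun i => Fin.cons 1 (q i) with hb
  have hli : LinearIndependent ℝ b := (affineIndependent_iff_cons q).1 hq
  have hC : Cn L = nnspan b := by
    rw [Cn_eq hL, hLq]
    exact coneOver_simplex q
  have he : ∀ i, b i ⬝ᵥ e0 n = 1 := by
    intro i
    rw [dot_e0, hb]
    simp
  obtain ⟨-, hPos, -, -⟩ := Pool.Agent.TH388.EQ.t_DU (n + 1) (Cn L) (e0 n) (e0 n) (Cn_CN hL)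
    (Cn_Pos hL) (e0_int hL)
  set τ : Fin (n + 1) → ℝ := fun j => dual b j ⬝ᵥ e0 n with hτ
  have hdual_ne : ∀ j, dual b j ≠ 0 := by
    intro j h0
    have h1 := dot_dual hli j j
    rw [h0, dotProduct_zero, if_pos rfl] at h1
    exact zero_ne_one h1
  have hτ0 : ∀ j, 0 < τ j := by
    intro j
    refine hPos _ ?_ (hdual_ne j)
    rw [hC, dl_nnspan hli]
    refine ⟨Pi.single j 1, ?_, ?_⟩
    · intro i
      by_cases hj : i = j
      · subst hj; simp
      · simp [hj]
    · simp [Pi.single_apply]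
  have hdet : (Matrix.of b).det ≠ 0 := det_ne_zero_of_li (Matrix.of b) hli
  -- expansion in the basis `b`
  have hexp : ∀ v : Fin (n + 1) → ℝ, v = ∑ j, (dual b j ⬝ᵥ v) • b j := by
    intro v
    have h2 : v ᵥ* ((Matrix.of b)⁻¹) ᵥ* (Matrix.of b) = v := by
      rw [Matrix.vecMul_vecMul, Matrix.nonsing_inv_mul _ (isUnit_iff_ne_zero.2 hdet),
        Matrix.vecMul_one]
    funext k
    have h3 := congrFun h2 k
    rw [← h3]
    simp only [Finset.sum_apply, Pi.smul_apply, smul_eq_mul, Matrix.vecMul, dotProduct, dual,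
      Matrix.of_apply]
    refine Finset.sum_congr rfl fun i _ => ?_
    congr 1
    exact Finset.sum_congr rfl fun j _ => mul_comm _ _
  have hce : e0 n = ∑ i, τ i • b i := hexp (e0 n)
  have hce2 := hce
  rw [hb, sum_cons_one] at hce2
  have hs1 : ∑ i, τ i = 1 := by
    have := congrFun hce2 0
    simpa [e0] using this.symm
  have hs2 : ∑ i, τ i • q i = 0 := by
    funext k
    have := congrFun hce2 k.succ
    simpa [e0] using this.symm
  refine ⟨τ, hτ0, hs1, hs2, fun σ h1 h2 => ?_, ?_⟩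
  · have h3 : ∑ i, (σ i - τ i) • b i = 0 := by
      rw [hb, sum_cons_one]
      have a1 : ∑ i, (σ i - τ i) = 0 := by rw [Finset.sum_sub_distrib, h1, hs1, sub_self]
      have a2 : ∑ i, (σ i - τ i) • q i = 0 := by
        simp_rw [sub_smul]
        rw [Finset.sum_sub_distrib, h2, hs2, sub_self]
      rw [a1, a2]
      funext j
      refine Fin.cases ?_ (fun k => ?_) j <;> simp
    have h4 := Fintype.linearIndependent_iff.1 hli _ h3
    funext i
    linarith [h4 i]
  · have h := value hli he hτ0 hce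
    rw [← hC, fT hL, fT' hL] at h
    rw [← h]
    ring

end Pool.Agent.Y505.MH
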